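import Pool.Agent.R552.TRS.Main

set_option autoImplicit false

/-!
Answer to Q1 of MP_b89b7d_lc: there is a topological Ramsey space, with uncountably many points, for
which the set of codes for `G_δ` Ramsey positive sets is not `Σ¹₂`-complete; it is even Borel. The
space is `ℕ^ℕ` with the pointwise order, `r_n(A)` being the restriction of `A` to `n`.
The definitions are in `Pool.Agent.R552.TRS.Defs`.
-/

open MeasureTheory

namespace Pool.Agent.Results.MP_b89b7d_lc.BorelCodes

open Pool.Agent.R552.TRS

theorem result : ∃ T : Data, T.IsTopologicalRamseySpace ∧ Uncountable T.R ∧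
    ∀ e : T.AR → ℕ, Function.Injective e →
      MeasurableSet (T.codes e) ∧ ¬ IsSigma12Complete (T.codes e) := by
  refine ⟨B, B_trs, ?_, fun e _ => ⟨codes_meas e, not_complete (codes_meas e)⟩⟩
  show Uncountable (ℕ → ℕ)
  classical
  have h : Function.Injective (fun (s : Set ℕ) (i : ℕ) => if i ∈ s then 1 else 0) := by
    intro s t hst
    ext i
    have h1 := congrFun hst i
    simp only at h1
    by_cases hs : i ∈ s <;> by_cases ht : i ∈ t <;> simp_all
  rw [← not_countable_iff]
  rintro ⟨f, hf⟩
  exact Function.cantor_injective _ (hf.comp h)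

end Pool.Agent.Results.MP_b89b7d_lc.BorelCodes
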